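import Pool.Agent.KS6_28.HC.Main

/-!
# Components of the Hilbert scheme of space curves which exist only in characteristic `p`

For every prime number `p`, every degree `d ≥ 28 R + 47` and every `g ≤ - (20 R + 45) d`, where
`p < 2 ^ (R + 1)`, the Hilbert scheme of curves of degree `d` and arithmetic genus `g` in the
projective 3-space over the algebraic closure of the field with `p` elements has a component which
exists only in characteristic `p`. The same Hilbert scheme over the integers has such components
for all prime numbers `p < 2 ^ (R + 1)` simultaneously; so for given `d` and all `g` which are
sufficiently negative they occur for all `p` up to a bound which is exponential in `d`.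

The curves are unions of lines and of double structures of high genus on lines (the machinery of
helper947 in the library, where this is done for `p = 2`, `d = 26`, `g = - 738`). Here we attach such
a curve to each plane configuration of points and lines: a point `P` of the configuration gives a
simple line `B_P`, a line gives a double line, besides there are one more simple line `B_0` and two
double lines which meet all simple lines, and the double line `A_t` of the line `t` meets `B_0` and
the lines `B_P`, `P ∈ t`, and no others. Three different common transversals of four lines force
the plane collinearities in every deformation. The plane configurations encode the computation of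
`p = 0` by doublings and additions of `1` (constructions of von Staudt), so they have `O (log p)`
points and lines; points in general position on the plane or on one of the lines are added to get
the same numbers of points, lines and incidences for all `p`, and all pairs `(d, g)` in the range.
-/

set_option autoImplicit false

open CategoryTheory AlgebraicGeometry
open Pool.Agent.Helper947.Crv

namespace Pool.Agent.Results.MP_c21e2e_ag.AllPrimes

/-- For all natural numbers `R` and `d ≥ 28 R + 47`, all integers `g ≤ - (20 R + 45) d` and all
prime numbers `p < 2 ^ (R + 1)` the Hilbert scheme of curves of degree `d` and arithmetic genus `g`
in the projective 3-space has a component over the algebraic closure of the field with `p` elements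
which exists only in characteristic `p`. -/
theorem result (R d : ℕ) (hd : 28 * R + 47 ≤ d) (g : ℤ) (hg : g ≤ -((20 * R + 45) * d)) :
    Nonempty (HilbertScheme d g) ∧
      ∀ (𝓗 : HilbertScheme d g) (p : ℕ) [Fact p.Prime], p < 2 ^ (R + 1) →
        ∃ Z ∈ irreducibleComponents (bc 𝓗 (AlgebraicClosure (ZMod p))), OnlyInChar 𝓗 p Z :=
  Pool.Agent.KS6_28.HC.main_theorem R d hd g hg

end Pool.Agent.Results.MP_c21e2e_ag.AllPrimes
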